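import Pool.Agent.N245.DS.St

/-!
# Project DS (helper245): LIM, functions near to a solution of a Sturm-Liouville equation

By helper711.
-/

set_option autoImplicit false

namespace Pool.Agent.N711.DS

open Set
open Pool.Agent.N245.DS

/-- a zero between two points with values of different signs -/
theorem ivt0 {f : ℝ → ℝ} (hc : Continuous f) {a b : ℝ} (h : a < b) (hab : f a * f b < 0) :
    ∃ x ∈ Ioo a b, f x = 0 := by
  rcases mul_neg_iff.1 hab with ⟨h1, h2⟩ | ⟨h1, h2⟩
  · obtain ⟨x, hx, hx2⟩ := intermediate_value_Ioo' h.le hc.continuousOn ⟨h2, h1⟩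
    exact ⟨x, hx, hx2⟩
  · obtain ⟨x, hx, hx2⟩ := intermediate_value_Ioo h.le hc.continuousOn ⟨h1, h2⟩
    exact ⟨x, hx, hx2⟩

/-- an interior maximum -/
theorem crit {G G' : ℝ → ℝ} (hG : ∀ x, HasDerivAt G (G' x) x) {y z t : ℝ} (ht : t ∈ Ioo y z)
    (hy : G y ≤ 0) (hz : G z ≤ 0) (h0 : 0 < G t) :
    ∃ p ∈ Ioo y z, (∀ x ∈ Icc y z, G x ≤ G p) ∧ G' p = 0 ∧ 0 < G p := by
  have hc : Continuous G := continuous_iff_continuousAt.2 fun x => (hG x).continuousAt
  have hyz : y ≤ z := (ht.1.trans ht.2).le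
  obtain ⟨p, hp, hmax⟩ := isCompact_Icc.exists_isMaxOn (nonempty_Icc.2 hyz) hc.continuousOn
  have hmax' : ∀ x ∈ Icc y z, G x ≤ G p := fun x hx => hmax hx
  have h1 : 0 < G p := lt_of_lt_of_le h0 (hmax' t ⟨ht.1.le, ht.2.le⟩)
  have h2 : y < p := lt_of_le_of_ne hp.1 fun h => by
    rw [← h] at h1
    linarith
  have h3 : p < z := lt_of_le_of_ne hp.2 fun h => by
    rw [h] at h1
    linarith
  exact ⟨p, ⟨h2, h3⟩, hmax', (hmax.isLocalMax (Icc_mem_nhds h2 h3)).hasDerivAt_eq_zero (hG p), h1⟩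

section sol

variable {ν Q : ℝ} {q w w' : ℝ → ℝ}

/-- uniqueness -/
theorem uniq (hQ : ∀ x, |ν - q x| ≤ Q) (hw : ∀ x, HasDerivAt w (w' x) x)
    (hw' : ∀ x, HasDerivAt w' ((ν - q x) * w x) x) {x₀ : ℝ} (h0 : w x₀ = 0) (h1 : w' x₀ = 0) :
    ∀ x, w x = 0 := by
  have hE : ∀ x, HasDerivAt (fun x => w x ^ 2 + w' x ^ 2)
      (2 * w x * w' x + 2 * w' x * ((ν - q x) * w x)) x := by
    intro x
    have h2 := (hw x).pow 2
    have h3 := (hw' x).pow 2
    have h4 := h2.add h3
    refine h4.congr_deriv ?_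
    push_cast
    ring
  have hb : ∀ x, |2 * w x * w' x + 2 * w' x * ((ν - q x) * w x)| ≤
      (1 + Q) * (w x ^ 2 + w' x ^ 2) := by
    intro x
    have h2 : 2 * w x * w' x + 2 * w' x * ((ν - q x) * w x) =
        (1 + (ν - q x)) * (2 * w x * w' x) := by ring
    rw [h2, abs_mul]
    have h3 : |1 + (ν - q x)| ≤ 1 + Q := by
      refine (abs_add_le _ _).trans ?_
      rw [abs_one]
      linarith [hQ x]
    have h4 : |2 * w x * w' x| ≤ w x ^ 2 + w' x ^ 2 := by
      rw [abs_le]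
      constructor <;> nlinarith [sq_nonneg (w x - w' x), sq_nonneg (w x + w' x)]
    have h5 : 0 ≤ Q := (abs_nonneg _).trans (hQ x)
    exact mul_le_mul h3 h4 (abs_nonneg _) (by linarith)
  have hexp : ∀ (c x : ℝ), HasDerivAt (fun x => (w x ^ 2 + w' x ^ 2) * Real.exp (c * x))
      ((2 * w x * w' x + 2 * w' x * ((ν - q x) * w x)) * Real.exp (c * x) +
        (w x ^ 2 + w' x ^ 2) * (Real.exp (c * x) * c)) x := by
    intro c x
    have h2 : HasDerivAt (fun x : ℝ => Real.exp (c * x)) (Real.exp (c * x) * c) x := by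
      have h3 : HasDerivAt (fun x : ℝ => c * x) c x := by
        simpa using (hasDerivAt_id x).const_mul c
      exact h3.exp
    exact (hE x).mul h2
  have hE0 : w x₀ ^ 2 + w' x₀ ^ 2 = 0 := by rw [h0, h1]; norm_num
  intro x
  have hEx : w x ^ 2 + w' x ^ 2 ≤ 0 := by
    rcases le_total x₀ x with h | h
    · have hanti : Antitone fun x => (w x ^ 2 + w' x ^ 2) * Real.exp (-(1 + Q) * x) := by
        refine antitone_of_deriv_nonpos (fun x => (hexp _ x).differentiableAt) fun x => ?_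
        rw [(hexp (-(1 + Q)) x).deriv]
        have h2 := (abs_le.1 (hb x)).2
        have h3 := Real.exp_pos (-(1 + Q) * x)
        nlinarith
      have h2 := hanti h
      simp only [hE0, zero_mul] at h2
      exact nonpos_of_mul_nonpos_left h2 (Real.exp_pos _)
    · have hmono : Monotone fun x => (w x ^ 2 + w' x ^ 2) * Real.exp ((1 + Q) * x) := by
        refine monotone_of_deriv_nonneg (fun x => (hexp _ x).differentiableAt) fun x => ?_
        rw [(hexp (1 + Q) x).deriv]
        have h2 := (abs_le.1 (hb x)).1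
        have h3 := Real.exp_pos ((1 + Q) * x)
        nlinarith
      have h2 := hmono h
      simp only [hE0, zero_mul] at h2
      exact nonpos_of_mul_nonpos_left h2 (Real.exp_pos _)
  have h2 : w x ^ 2 = 0 := by nlinarith [sq_nonneg (w x), sq_nonneg (w' x)]
  exact pow_eq_zero_iff (two_ne_zero) |>.1 h2

/-- the distance of two zeros -/
theorem gap (hQ0 : 0 ≤ Q) (hQ : ∀ x, |ν - q x| ≤ Q) (hw : ∀ x, HasDerivAt w (w' x) x)
    (hw' : ∀ x, HasDerivAt w' ((ν - q x) * w x) x) {y z p : ℝ} (hp : p ∈ Ioo y z)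
    (hy : w y = 0) (hz : w z = 0) (h0 : w p ≠ 0) : 1 ≤ (z - y) * Real.sqrt Q := by
  have hsq : ∀ x, HasDerivAt (fun x => w x ^ 2) (2 * w x * w' x) x := by
    intro x
    refine ((hw x).pow 2).congr_deriv ?_
    push_cast
    ring
  obtain ⟨p₀, hp₀, hmax, hd, hpos⟩ := crit hsq hp (by simp [hy]) (by simp [hz]) (by positivity)
  have hw0 : w p₀ ≠ 0 := by
    intro h
    rw [h] at hpos
    norm_num at hpos
  have hd0 : w' p₀ = 0 := by
    rcases mul_eq_zero.1 hd with h | h
    · exfalso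
      exact hw0 ((mul_eq_zero.1 h).resolve_left two_ne_zero)
    · exact h
  obtain ⟨m, hm⟩ : ∃ m, m = |w p₀| := ⟨_, rfl⟩
  have hm0 : 0 < m := by rw [hm]; exact abs_pos.2 hw0
  have hmb : ∀ x ∈ Icc y z, |w x| ≤ m := by
    intro x hx
    rw [hm]
    exact sq_le_sq.1 (hmax x hx)
  have hyz : y < z := hp.1.trans hp.2
  have hp₀I : p₀ ∈ Icc y z := ⟨hp₀.1.le, hp₀.2.le⟩
  have h1 : ∀ x ∈ Icc y z, ‖w' x‖ ≤ Q * m * (z - y) := by
    intro x hx
    have h2 := Convex.norm_image_sub_le_of_norm_hasDerivWithin_le (f := w')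
      (f' := fun x => (ν - q x) * w x) (C := Q * m) (s := Icc y z) (x := p₀) (y := x)
      (fun x _ => (hw' x).hasDerivWithinAt) (fun x hx => by
        rw [Real.norm_eq_abs, abs_mul]
        exact mul_le_mul (hQ x) (hmb x hx) (abs_nonneg _) hQ0) (convex_Icc y z) hp₀I hx
    rw [hd0, sub_zero] at h2
    refine h2.trans (mul_le_mul_of_nonneg_left ?_ (by positivity))
    rw [Real.norm_eq_abs, abs_le]
    constructor <;> linarith [hx.1, hx.2, hp₀.1, hp₀.2]
  have h2 := Convex.norm_image_sub_le_of_norm_hasDerivWithin_le (f := w) (f' := w')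
    (C := Q * m * (z - y)) (s := Icc y z) (x := y) (y := p₀)
    (fun x _ => (hw x).hasDerivWithinAt) h1 (convex_Icc y z) ⟨le_rfl, hyz.le⟩ hp₀I
  rw [hy, sub_zero, Real.norm_eq_abs, ← hm, Real.norm_eq_abs,
    abs_of_nonneg (by linarith [hp₀.1])] at h2
  have h3 : m ≤ Q * m * (z - y) * (z - y) := by
    refine h2.trans (mul_le_mul_of_nonneg_left (by linarith [hp₀.2]) ?_)
    have : 0 ≤ z - y := by linarith
    positivity
  have h4 : 1 ≤ Q * (z - y) ^ 2 := by
    by_contra hcon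
    push Not at hcon
    have h5 : m * (Q * (z - y) ^ 2) < m * 1 := mul_lt_mul_of_pos_left hcon hm0
    nlinarith
  have h5 : Q * (z - y) ^ 2 = ((z - y) * Real.sqrt Q) ^ 2 := by
    rw [mul_pow, Real.sq_sqrt hQ0]
    ring
  rw [h5] at h4
  have h6 : 0 ≤ (z - y) * Real.sqrt Q := mul_nonneg (by linarith) (Real.sqrt_nonneg _)
  nlinarith

end sol

theorem lim : Pool.Agent.N245.DS.S_LIM := by
  intro a b ν Q q w w' hab hQ0 hqc hQ hw hw' hne
  have hwc : Continuous w := continuous_iff_continuousAt.2 fun x => (hw x).continuousAt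
  have hwc' : Continuous w' := continuous_iff_continuousAt.2 fun x => (hw' x).continuousAt
  obtain ⟨x₀, hx₀, hmin⟩ := isCompact_Icc.exists_isMinOn (nonempty_Icc.2 hab.le)
    ((hwc.abs.add hwc'.abs).continuousOn (s := Icc a b))
  obtain ⟨ε, hε⟩ : ∃ ε, ε = (|w x₀| + |w' x₀|) / 4 := ⟨_, rfl⟩
  have hε0 : 0 < ε := by
    rw [hε]
    by_contra hcon
    have h1 := abs_nonneg (w x₀)
    have h2 := abs_nonneg (w' x₀)
    have h3 : |w x₀| = 0 := by linarith
    have h4 : |w' x₀| = 0 := by linarith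
    obtain ⟨x, hx⟩ := hne
    exact hx (uniq hQ hw hw' (abs_eq_zero.1 h3) (abs_eq_zero.1 h4) x)
  have hlow : ∀ x ∈ Icc a b, 4 * ε ≤ |w x| + |w' x| := by
    intro x hx
    have h1 : |w x₀| + |w' x₀| ≤ |w x| + |w' x| := hmin hx
    rw [hε]
    linarith
  refine ⟨ε, hε0, fun F F' hF hF1 hF2 M hM => ?_⟩
  obtain ⟨t, ht1, ht2, ht3⟩ := hM
  have hFc : Continuous F := continuous_iff_continuousAt.2 fun x => (hF x).continuousAt
  -- the zeros of `F`
  have hz : ∀ i, ∃ z, i < M → z ∈ Ioo (t i) (t (i + 1)) ∧ F z = 0 := by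
    intro i
    by_cases hi : i < M
    · obtain ⟨z, h1, h2⟩ := ivt0 hFc (ht1 i hi) (ht3 i hi)
      exact ⟨z, fun _ => ⟨h1, h2⟩⟩
    · exact ⟨0, fun h => absurd h hi⟩
  choose z hz using hz
  -- the critical points
  have hp : ∀ i, ∃ p, i + 1 < M → p ∈ Ioo (z i) (z (i + 1)) ∧ 0 < w p * F (t (i + 1)) := by
    intro i
    by_cases hi : i + 1 < M
    · obtain ⟨h1, h2⟩ := hz i (by omega)
      obtain ⟨h3, h4⟩ := hz (i + 1) hi
      have h5 : F (t (i + 1)) ≠ 0 := by
        intro h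
        have h6 := ht3 (i + 1) hi
        rw [h, zero_mul] at h6
        exact lt_irrefl _ h6
      obtain ⟨p, hp1, -, hp2, hp3⟩ := crit (G := fun x => F x * F (t (i + 1)))
        (fun x => (hF x).mul_const _) (t := t (i + 1)) (y := z i) (z := z (i + 1))
        ⟨h1.2, h3.1⟩ (by simp [h2]) (by simp [h4])
        (by
          have := mul_self_pos.2 h5
          exact this)
      refine ⟨p, fun _ => ⟨hp1, ?_⟩⟩
      have hd : F' p = 0 := (mul_eq_zero.1 hp2).resolve_right h5
      have hpI : p ∈ Icc a b := by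
        have h6 := (ht2 i (by omega)).1
        have h7 := (ht2 (i + 1 + 1) (by omega)).2
        exact ⟨by linarith [h1.1, hp1.1], by linarith [h3.2, hp1.2]⟩
      have h6 := hF1 p hpI
      have h7 := hF2 p hpI
      have h8 := hlow p hpI
      rw [hd, zero_sub, abs_neg] at h7
      have h9 : 3 * ε ≤ |w p| := by linarith
      have h10 : 0 < w p * F p := by
        rw [abs_le] at h6
        rcases le_total 0 (w p) with h | h
        · rw [abs_of_nonneg h] at h9
          exact mul_pos (by linarith) (by linarith [h6.1])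
        · rw [abs_of_nonpos h] at h9
          exact mul_pos_of_neg_of_neg (by linarith) (by linarith [h6.2])
      have h11 : 0 < (w p * F p) * (F p * F (t (i + 1))) := mul_pos h10 hp3
      have h12 : (w p * F p) * (F p * F (t (i + 1))) = (w p * F (t (i + 1))) * F p ^ 2 := by ring
      rw [h12] at h11
      exact pos_of_mul_pos_left h11 (sq_nonneg _)
    · exact ⟨0, fun h => absurd h hi⟩
  choose p hp using hp
  -- the zeros of `w`
  have hy : ∀ i, ∃ y, i + 2 < M → y ∈ Ioo (p i) (p (i + 1)) ∧ w y = 0 := by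
    intro i
    by_cases hi : i + 2 < M
    · obtain ⟨h1, h2⟩ := hp i (by omega)
      obtain ⟨h3, h4⟩ := hp (i + 1) (by omega)
      have h5 := ht3 (i + 1) (by omega)
      have h6 : w (p i) * w (p (i + 1)) < 0 := by
        by_contra hcon
        push Not at hcon
        have h7 := mul_pos h2 h4
        have h8 : w (p i) * F (t (i + 1)) * (w (p (i + 1)) * F (t (i + 1 + 1))) =
            (w (p i) * w (p (i + 1))) * (F (t (i + 1)) * F (t (i + 1 + 1))) := by ring
        rw [h8] at h7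
        have h9 := mul_nonpos_of_nonneg_of_nonpos hcon h5.le
        linarith
      obtain ⟨y, h7, h8⟩ := ivt0 hwc (h1.2.trans h3.1) h6
      exact ⟨y, fun _ => ⟨h7, h8⟩⟩
    · exact ⟨0, fun h => absurd h hi⟩
  choose y hy using hy
  have hsum : ∀ j : ℕ, j + 2 < M → (j : ℝ) ≤ (y j - y 0) * Real.sqrt Q := by
    intro j
    induction j with
    | zero =>
      intro _
      simp
    | succ j ih =>
      intro hj
      have h1 := ih (by omega)
      obtain ⟨h2, h3⟩ := hy j (by omega)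
      obtain ⟨h4, h5⟩ := hy (j + 1) hj
      obtain ⟨-, h6⟩ := hp (j + 1) (by omega)
      have h7 : w (p (j + 1)) ≠ 0 := by
        intro h
        rw [h, zero_mul] at h6
        exact lt_irrefl _ h6
      have h8 := gap hQ0 hQ hw hw' (y := y j) (z := y (j + 1)) (p := p (j + 1))
        ⟨h2.2, h4.1⟩ h3 h5 h7
      push_cast
      have h9 : (y (j + 1) - y 0) * Real.sqrt Q =
          (y j - y 0) * Real.sqrt Q + (y (j + 1) - y j) * Real.sqrt Q := by ring
      rw [h9]
      linarith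
  have hsq : 0 ≤ (b - a) * Real.sqrt Q := mul_nonneg (by linarith) (Real.sqrt_nonneg _)
  by_cases hM3 : M < 3
  · have h1 : (M : ℝ) < 3 := by exact_mod_cast hM3
    linarith
  · obtain ⟨j, rfl⟩ : ∃ j, M = j + 3 := ⟨M - 3, by omega⟩
    have h1 := hsum j (by omega)
    have h2 : y j - y 0 ≤ b - a := by
      obtain ⟨h3, -⟩ := hy j (by omega)
      obtain ⟨h4, -⟩ := hp (j + 1) (by omega)
      obtain ⟨h5, -⟩ := hz (j + 1 + 1) (by omega)
      obtain ⟨h6, -⟩ := hy 0 (by omega)
      obtain ⟨h7, -⟩ := hp 0 (by omega)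
      obtain ⟨h8, -⟩ := hz 0 (by omega)
      have h9 := (ht2 0 (by omega)).1
      have h10 := (ht2 (j + 1 + 1 + 1) (by omega)).2
      linarith [h3.2, h4.2, h5.2, h6.1, h7.1, h8.1]
    have h3 := mul_le_mul_of_nonneg_right h2 (Real.sqrt_nonneg Q)
    push_cast
    linarith

end Pool.Agent.N711.DS
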